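import Pool.Agent.Lib.MP_6bc78b_nt.MS.P2.Iface

/-!
# Vaughan's identity

Module VAU of board ms2_modules.
-/

namespace Pool.Agent.Lib.MP_6bc78b_nt.MS.P2.H94

open ArithmeticFunction

theorem lo_apply (z : ℝ) (a : ArithmeticFunction ℝ) (n : ℕ) :
    lo z a n = if (n : ℝ) ≤ z then a n else 0 := rfl

theorem hi_apply (z : ℝ) (a : ArithmeticFunction ℝ) (n : ℕ) :
    hi z a n = if z < (n : ℝ) then a n else 0 := rfl

theorem lo_add_hi (z : ℝ) (a : ArithmeticFunction ℝ) : lo z a + hi z a = a := by
  ext n
  rw [ArithmeticFunction.add_apply, lo_apply, hi_apply]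
  by_cases h : (n : ℝ) ≤ z
  · rw [if_pos h, if_neg (not_lt.2 h), add_zero]
  · rw [if_neg h, if_pos (not_le.1 h), zero_add]

theorem mu_mul_one : mu * one = 1 := by
  rw [mu, one]
  exact ArithmeticFunction.coe_moebius_mul_coe_zeta

theorem La_mul_one : La * one = lg := by
  rw [La, one, lg]
  exact ArithmeticFunction.vonMangoldt_mul_zeta

/-- Vaughan's identity. -/
theorem vau : VauStatement := by
  intro z
  have hM := lo_add_hi z mu
  have hL := lo_add_hi z La
  have hM' : hi z mu = mu - lo z mu := by rw [eq_sub_iff_add_eq, add_comm]; exact hM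
  have hL' : hi z La = La - lo z La := by rw [eq_sub_iff_add_eq, add_comm]; exact hL
  have h1 := mu_mul_one
  have h2 := La_mul_one
  rw [hM', hL']
  have key : (mu - lo z mu) * (La - lo z La) * one =
      (mu * one) * La - (mu * one) * lo z La - lo z mu * (La * one) +
        lo z mu * lo z La * one := by ring
  rw [key, h1, h2]
  ring

end Pool.Agent.Lib.MP_6bc78b_nt.MS.P2.H94
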