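import Pool.Agent.Lib.MP_6bc78b_nt.MS.P2.Iface

/-!
# Closure properties of divisor-bounded families

Module DBC of board ms2_modules.
-/

namespace Pool.Agent.Lib.MP_6bc78b_nt.MS.P2.H94

open ArithmeticFunction

theorem one_le_log {T : ℝ} (hT : 3 ≤ T) : 1 ≤ Real.log T := by
  rw [Real.le_log_iff_exp_le (by linarith)]
  exact (Real.exp_one_lt_three.le).trans hT

theorem one_le_dv {n : ℕ} (hn : n ≠ 0) : 1 ≤ dv n := by
  have h : 1 ≤ n.divisors.card := Finset.card_pos.2 ⟨1, Nat.one_mem_divisors.2 hn⟩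
  rw [dv]
  exact_mod_cast h

theorem dv_nonneg (n : ℕ) : 0 ≤ dv n := Nat.cast_nonneg _

theorem dv_le_of_dvd {d n : ℕ} (hd : d ∣ n) (hn : n ≠ 0) : dv d ≤ dv n := by
  rw [dv, dv]
  exact_mod_cast Finset.card_le_card (Nat.divisors_subset_of_dvd hn hd)

/-- A bound with separate exponents, for nonzero arguments, suffices. -/
theorem DB.of_bound {a : ℝ → ArithmeticFunction ℝ} (C : ℝ) (k l : ℕ)
    (h : ∀ T : ℝ, 3 ≤ T → ∀ n : ℕ, n ≠ 0 → (n : ℝ) ≤ T ^ 2 →
      |a T n| ≤ C * Real.log T ^ k * dv n ^ l) : DB a := by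
  refine ⟨max ⌈C⌉₊ (max k l), fun T hT n hn => ?_⟩
  set K := max ⌈C⌉₊ (max k l) with hK
  have hL := one_le_log hT
  have hL0 : 0 ≤ Real.log T := by linarith
  rcases eq_or_ne n 0 with rfl | hn0
  · have h0 : a T 0 = 0 := ArithmeticFunction.map_zero
    rw [h0, abs_zero]
    exact mul_nonneg (mul_nonneg (Nat.cast_nonneg _) (pow_nonneg hL0 _))
      (pow_nonneg (dv_nonneg _) _)
  have hd := one_le_dv hn0
  have hC : C ≤ (K : ℝ) := (Nat.le_ceil C).trans (by
    exact_mod_cast (le_max_left _ _))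
  have hk : k ≤ K := (le_max_left _ _).trans (le_max_right _ _)
  have hl : l ≤ K := (le_max_right _ _).trans (le_max_right _ _)
  refine (h T hT n hn0 hn).trans ?_
  have e1 : Real.log T ^ k ≤ Real.log T ^ K := pow_le_pow_right₀ hL hk
  have e2 : dv n ^ l ≤ dv n ^ K := pow_le_pow_right₀ hd hl
  have p1 : 0 ≤ Real.log T ^ k := pow_nonneg hL0 _
  have p2 : 0 ≤ dv n ^ l := pow_nonneg (dv_nonneg _) _
  have hK0 : (0 : ℝ) ≤ K := Nat.cast_nonneg _
  calc C * Real.log T ^ k * dv n ^ l ≤ K * Real.log T ^ k * dv n ^ l :=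
        mul_le_mul_of_nonneg_right (mul_le_mul_of_nonneg_right hC p1) p2
    _ ≤ K * Real.log T ^ K * dv n ^ l :=
        mul_le_mul_of_nonneg_right (mul_le_mul_of_nonneg_left e1 hK0) p2
    _ ≤ K * Real.log T ^ K * dv n ^ K :=
        mul_le_mul_of_nonneg_left e2 (mul_nonneg hK0 (pow_nonneg hL0 _))

/-- Domination. -/
theorem DB.of_le {a b : ℝ → ArithmeticFunction ℝ} (hb : DB b)
    (h : ∀ T : ℝ, ∀ n : ℕ, |a T n| ≤ |b T n|) : DB a := by
  obtain ⟨K, hK⟩ := hb
  exact ⟨K, fun T hT n hn => (h T n).trans (hK T hT n hn)⟩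

theorem sum_bound {L x : ℝ} (hL : 1 ≤ L) (hx : 1 ≤ x) (j k : ℕ) :
    (j : ℝ) * L ^ j * x ^ j + (k : ℝ) * L ^ k * x ^ k ≤
      ((j : ℝ) + k) * L ^ (j + k) * x ^ (j + k) := by
  have hL0 : 0 ≤ L := by linarith
  have hx0 : 0 ≤ x := by linarith
  have a1 : L ^ j ≤ L ^ (j + k) := pow_le_pow_right₀ hL (Nat.le_add_right _ _)
  have a2 : L ^ k ≤ L ^ (j + k) := pow_le_pow_right₀ hL (Nat.le_add_left _ _)
  have b1 : x ^ j ≤ x ^ (j + k) := pow_le_pow_right₀ hx (Nat.le_add_right _ _)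
  have b2 : x ^ k ≤ x ^ (j + k) := pow_le_pow_right₀ hx (Nat.le_add_left _ _)
  have c1 : L ^ j * x ^ j ≤ L ^ (j + k) * x ^ (j + k) :=
    mul_le_mul a1 b1 (pow_nonneg hx0 _) (pow_nonneg hL0 _)
  have c2 : L ^ k * x ^ k ≤ L ^ (j + k) * x ^ (j + k) :=
    mul_le_mul a2 b2 (pow_nonneg hx0 _) (pow_nonneg hL0 _)
  have d1 := mul_le_mul_of_nonneg_left c1 (Nat.cast_nonneg (α := ℝ) j)
  have d2 := mul_le_mul_of_nonneg_left c2 (Nat.cast_nonneg (α := ℝ) k)
  nlinarith [d1, d2]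

theorem DB.add {a b : ℝ → ArithmeticFunction ℝ} (ha : DB a) (hb : DB b) :
    DB (fun T => a T + b T) := by
  obtain ⟨j, hj⟩ := ha
  obtain ⟨k, hk⟩ := hb
  refine DB.of_bound ((j : ℝ) + k) (j + k) (j + k) fun T hT n hn0 hn => ?_
  rw [ArithmeticFunction.add_apply]
  exact (abs_add_le _ _).trans ((add_le_add (hj T hT n hn) (hk T hT n hn)).trans
    (sum_bound (one_le_log hT) (one_le_dv hn0) j k))

theorem DB.neg {a : ℝ → ArithmeticFunction ℝ} (ha : DB a) : DB (fun T => -(a T)) :=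
  DB.of_le ha fun T n => by
    have : (-(a T)) n = -(a T n) := rfl
    rw [this, abs_neg]

theorem DB.sub {a b : ℝ → ArithmeticFunction ℝ} (ha : DB a) (hb : DB b) :
    DB (fun T => a T - b T) := by
  have h := DB.add ha (DB.neg hb)
  simpa only [sub_eq_add_neg] using h

theorem DB.mul {a b : ℝ → ArithmeticFunction ℝ} (ha : DB a) (hb : DB b) :
    DB (fun T => a T * b T) := by
  obtain ⟨j, hj⟩ := ha
  obtain ⟨k, hk⟩ := hb
  refine DB.of_bound ((j : ℝ) * k) (j + k) (j + k + 1) fun T hT n hn0 hn => ?_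
  have hL := one_le_log hT
  have hL0 : 0 ≤ Real.log T := by linarith
  rw [ArithmeticFunction.mul_apply]
  have hterm : ∀ p ∈ n.divisorsAntidiagonal, |a T p.1 * b T p.2| ≤
      (j : ℝ) * k * Real.log T ^ (j + k) * dv n ^ (j + k) := by
    intro p hp
    have hpn := (Nat.mem_divisorsAntidiagonal.1 hp).1
    have hd1 : p.1 ∣ n := ⟨p.2, hpn.symm⟩
    have hd2 : p.2 ∣ n := ⟨p.1, by rw [mul_comm]; exact hpn.symm⟩
    have h1 : (p.1 : ℝ) ≤ T ^ 2 :=
      (Nat.cast_le.2 (Nat.le_of_dvd (Nat.pos_of_ne_zero hn0) hd1)).trans hn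
    have h2 : (p.2 : ℝ) ≤ T ^ 2 :=
      (Nat.cast_le.2 (Nat.le_of_dvd (Nat.pos_of_ne_zero hn0) hd2)).trans hn
    have e1 : |a T p.1| ≤ (j : ℝ) * Real.log T ^ j * dv n ^ j :=
      (hj T hT _ h1).trans (mul_le_mul_of_nonneg_left
        (pow_le_pow_left₀ (dv_nonneg _) (dv_le_of_dvd hd1 hn0) _)
        (mul_nonneg (Nat.cast_nonneg _) (pow_nonneg hL0 _)))
    have e2 : |b T p.2| ≤ (k : ℝ) * Real.log T ^ k * dv n ^ k :=
      (hk T hT _ h2).trans (mul_le_mul_of_nonneg_left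
        (pow_le_pow_left₀ (dv_nonneg _) (dv_le_of_dvd hd2 hn0) _)
        (mul_nonneg (Nat.cast_nonneg _) (pow_nonneg hL0 _)))
    rw [abs_mul]
    refine (mul_le_mul e1 e2 (abs_nonneg _) ((abs_nonneg _).trans e1)).trans (le_of_eq ?_)
    rw [pow_add, pow_add]
    ring
  calc |∑ p ∈ n.divisorsAntidiagonal, a T p.1 * b T p.2|
      ≤ ∑ p ∈ n.divisorsAntidiagonal, |a T p.1 * b T p.2| := Finset.abs_sum_le_sum_abs _ _
    _ ≤ ∑ _p ∈ n.divisorsAntidiagonal, (j : ℝ) * k * Real.log T ^ (j + k) * dv n ^ (j + k) :=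
        Finset.sum_le_sum hterm
    _ = dv n * ((j : ℝ) * k * Real.log T ^ (j + k) * dv n ^ (j + k)) := by
        rw [Finset.sum_const, nsmul_eq_mul, dv]
        congr 2
        have hc : n.divisorsAntidiagonal.card = n.divisors.card := by
          rw [← Nat.map_div_right_divisors, Finset.card_map]
        exact_mod_cast hc
    _ = (j : ℝ) * k * Real.log T ^ (j + k) * dv n ^ (j + k + 1) := by
        rw [pow_succ (dv n) (j + k)]
        ring

theorem DB.lo {a : ℝ → ArithmeticFunction ℝ} (z : ℝ → ℝ) (ha : DB a) :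
    DB (fun T => P2.lo (z T) (a T)) :=
  DB.of_le ha fun T n => by
    have : P2.lo (z T) (a T) n = if (n : ℝ) ≤ z T then a T n else 0 := rfl
    rw [this]
    split_ifs
    · exact le_rfl
    · rw [abs_zero]; exact abs_nonneg _

theorem DB.hi {a : ℝ → ArithmeticFunction ℝ} (z : ℝ → ℝ) (ha : DB a) :
    DB (fun T => P2.hi (z T) (a T)) :=
  DB.of_le ha fun T n => by
    have : P2.hi (z T) (a T) n = if z T < (n : ℝ) then a T n else 0 := rfl
    rw [this]
    split_ifs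
    · exact le_rfl
    · rw [abs_zero]; exact abs_nonneg _

/-- Families bounded by a constant. -/
theorem DB.of_const {a : ℝ → ArithmeticFunction ℝ} (C : ℝ)
    (h : ∀ T : ℝ, 3 ≤ T → ∀ n : ℕ, n ≠ 0 → |a T n| ≤ C) : DB a :=
  DB.of_bound C 0 0 fun T hT n hn0 _ => by
    rw [pow_zero, pow_zero, mul_one, mul_one]
    exact h T hT n hn0

theorem db_one : DB (fun _ => 1) := DB.of_const 1 fun _ _ n _ => by
  rw [ArithmeticFunction.one_apply]
  split_ifs
  · rw [abs_one]
  · rw [abs_zero]; exact zero_le_one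

theorem db_zeta : DB (fun _ => one) := DB.of_const 1 fun T hT n hn => by
  have : one n = 1 := by
    rw [one, ArithmeticFunction.natCoe_apply, ArithmeticFunction.zeta_apply, if_neg hn,
      Nat.cast_one]
  rw [this, abs_one]

theorem log_le_of_le {T : ℝ} (hT : 3 ≤ T) {n : ℕ} (hn0 : n ≠ 0) (hn : (n : ℝ) ≤ T ^ 2) :
    Real.log n ≤ 2 * Real.log T := by
  have hpos : (0 : ℝ) < n := Nat.cast_pos.2 (Nat.pos_of_ne_zero hn0)
  calc Real.log n ≤ Real.log (T ^ 2) := Real.log_le_log hpos hn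
    _ = 2 * Real.log T := by rw [Real.log_pow]; norm_num

theorem log_nonneg_nat (n : ℕ) : 0 ≤ Real.log n := Real.log_natCast_nonneg n

theorem db_lg : DB (fun _ => lg) := DB.of_bound 2 1 0 fun T hT n hn0 hn => by
  have : lg n = Real.log n := rfl
  rw [this, pow_one, pow_zero, mul_one, abs_of_nonneg (log_nonneg_nat n)]
  exact log_le_of_le hT hn0 hn

theorem db_La : DB (fun _ => La) := DB.of_bound 2 1 0 fun T hT n hn0 hn => by
  have h1 : La n ≤ Real.log n := ArithmeticFunction.vonMangoldt_le_log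
  have h2 : 0 ≤ La n := ArithmeticFunction.vonMangoldt_nonneg
  rw [pow_one, pow_zero, mul_one, abs_of_nonneg h2]
  exact h1.trans (log_le_of_le hT hn0 hn)

theorem abs_moebius_le (n : ℕ) : |((ArithmeticFunction.moebius n : ℤ) : ℝ)| ≤ 1 := by
  have := ArithmeticFunction.abs_moebius_le_one (n := n)
  rw [← Int.cast_abs]
  exact_mod_cast this

theorem db_mu : DB (fun _ => mu) := DB.of_const 1 fun T hT n hn => by
  have : mu n = ((ArithmeticFunction.moebius n : ℤ) : ℝ) := by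
    rw [mu, ArithmeticFunction.intCoe_apply]
  rw [this]
  exact abs_moebius_le n

/-- If `n ≤ T ^ th` then `0 ≤ 1 - log n / (th log T) ≤ 1`. -/
theorem ratio_bounds {th T : ℝ} (hth : 0 < th) (hT : 3 ≤ T) {n : ℕ} (hn0 : n ≠ 0)
    (hn : (n : ℝ) ≤ T ^ th) :
    0 ≤ 1 - Real.log n / (th * Real.log T) ∧ 1 - Real.log n / (th * Real.log T) ≤ 1 ∧
      Real.log n ≤ th * Real.log T := by
  have hL := one_le_log hT
  have hL0 : 0 < th * Real.log T := mul_pos hth (by linarith)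
  have hpos : (0 : ℝ) < n := Nat.cast_pos.2 (Nat.pos_of_ne_zero hn0)
  have h1 : Real.log n ≤ th * Real.log T := by
    calc Real.log n ≤ Real.log (T ^ th) := Real.log_le_log hpos hn
      _ = th * Real.log T := Real.log_rpow (by linarith) _
  have h2 : Real.log n / (th * Real.log T) ≤ 1 := (div_le_one hL0).2 h1
  have h3 : 0 ≤ Real.log n / (th * Real.log T) := div_nonneg (log_nonneg_nat n) hL0.le
  exact ⟨by linarith, by linarith, h1⟩

theorem abs_PP_le {c1 c2 x : ℝ} (h0 : 0 ≤ x) (h1 : x ≤ 1) : |PP c1 c2 x| ≤ |c1| + |c2| := by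
  rw [PP]
  have hx : |x| ≤ 1 := by rw [abs_of_nonneg h0]; exact h1
  have hx2 : |x ^ 2| ≤ 1 := by
    rw [abs_of_nonneg (by positivity)]
    nlinarith
  calc |c1 * x + c2 * x ^ 2| ≤ |c1 * x| + |c2 * x ^ 2| := abs_add_le _ _
    _ = |c1| * |x| + |c2| * |x ^ 2| := by rw [abs_mul, abs_mul]
    _ ≤ |c1| * 1 + |c2| * 1 := add_le_add (mul_le_mul_of_nonneg_left hx (abs_nonneg _))
        (mul_le_mul_of_nonneg_left hx2 (abs_nonneg _))
    _ = |c1| + |c2| := by ring

theorem db_bet {th c1 c2 : ℝ} (hth : 0 < th) : DB (bet th c1 c2) :=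
  DB.of_const (|c1| + |c2|) fun T hT n hn => by
    have hval : bet th c1 c2 T n = betf th c1 c2 T n := rfl
    rw [hval, betf]
    split_ifs with h
    · obtain ⟨h0, h1, -⟩ := ratio_bounds hth hT hn h
      rw [abs_mul]
      calc |((ArithmeticFunction.moebius n : ℤ) : ℝ)| *
            |PP c1 c2 (1 - Real.log n / (th * Real.log T))| ≤ 1 * (|c1| + |c2|) :=
            mul_le_mul (abs_moebius_le n) (abs_PP_le h0 h1) (abs_nonneg _) zero_le_one
        _ = |c1| + |c2| := one_mul _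
    · rw [abs_zero]
      positivity

theorem db_bb {lam : ℝ} (hlam : 0 < lam) : DB (bb lam) :=
  DB.of_const 1 fun T hT n hn => by
    have hval : bb lam T n = bbf lam T n := rfl
    rw [hval, bbf]
    split_ifs with h
    · obtain ⟨h0, h1, h2⟩ := ratio_bounds hlam hT hn h
      have hL0 : 0 < lam * Real.log T := mul_pos hlam (by linarith [one_le_log hT])
      have hv0 : 0 ≤ ArithmeticFunction.vonMangoldt n := ArithmeticFunction.vonMangoldt_nonneg
      have hv1 : ArithmeticFunction.vonMangoldt n ≤ Real.log n :=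
        ArithmeticFunction.vonMangoldt_le_log
      rw [abs_of_nonneg (div_nonneg (mul_nonneg hv0 h0) hL0.le), div_le_one hL0]
      calc ArithmeticFunction.vonMangoldt n * (1 - Real.log n / (lam * Real.log T))
          ≤ ArithmeticFunction.vonMangoldt n * 1 := mul_le_mul_of_nonneg_left h1 hv0
        _ ≤ lam * Real.log T := by rw [mul_one]; exact hv1.trans h2
    · rw [abs_zero]
      exact zero_le_one

/-- Closure properties of divisor-bounded families. -/
theorem dbc : DbcStatement :=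
  ⟨fun _ _ ha hb => DB.add ha hb, fun _ _ ha hb => DB.sub ha hb,
    fun _ _ ha hb => DB.mul ha hb, fun z _ ha => ⟨DB.lo z ha, DB.hi z ha⟩,
    db_one, db_zeta, db_lg, db_La, db_mu, fun _ _ _ h => db_bet h, fun _ h => db_bb h⟩

end Pool.Agent.Lib.MP_6bc78b_nt.MS.P2.H94
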